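import Pool.Agent.N420.PM.MAIN

/-!
# Perfect matchings of `K_{2p}` with a prescribed list of edge lengths

For every odd prime `p` and every list `L` of `p` integers in `{1, …, p - 1}` the complete graph
`K_{2p}` on `0, …, 2p - 1` has a perfect matching whose list of edge lengths is `L` if and only if
the number of even entries of `L` is even.

Idea: split the vertices by parity into two copies of `ℤ/p`. A matching consists of `N + 1` edges
between the classes (odd lengths) and `e` edges inside each class (even lengths),
`N + 2 e + 1 = p`. Take the outer end points `a i`, `a i + ε i * d i` (`ε i = ±1`), the inner end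
points `x j`, `x j + f j` and `y j`, `y j + g j` and one fixed outer edge `0`, `δ` as unknowns, and
sum `∏ ε i` times the product of the two Vandermonde determinants of the `p` points of each class
over all choices. In the Leibniz expansion only the terms with all degrees minimal survive; they
correspond to pairs of bijections compatible with `u ↦ -u`, all of them have the same value, and
their number is `(p-1)(p-3)⋯(p-2e+1) N! 2^e e!`, which is prime to `p`. So the sum is not zero.
-/

set_option autoImplicit false

namespace Pool.Agent.Results.MP_b0b062_co.PrescribedLengths

open Pool.Agent.N420.PM

/-- `IsPerfectMatching p F`: `F` is a set of unordered pairs of elements of `{0, …, 2p - 1}`, none of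
them a loop, and every vertex lies on exactly one of them. `lengths p F`: the multiset of the lengths
`min (|x - y|, 2p - |x - y|)` of its edges. -/
theorem result (p : ℕ) (hp : p.Prime) (hp2 : p ≠ 2) (L : Multiset ℕ)
    (hL : Multiset.card L = p) (hl : ∀ l ∈ L, 1 ≤ l ∧ l ≤ p - 1) :
    (∃ F : Finset (Sym2 (Fin (2 * p))), IsPerfectMatching p F ∧ lengths p F = L) ↔
      Even (Multiset.card (L.filter fun l => Even l)) :=
  main p hp hp2 L hL hl

end Pool.Agent.Results.MP_b0b062_co.PrescribedLengths
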